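import Pool.Agent.TH279.GR.Defs

/-! GR-G0a: bidegrees, products, uniform bidegrees (helper952 for helper279). -/

set_option autoImplicit false

open MvPolynomial Module Filter Topology

namespace Pool.Agent.TH279.GR.G0a

variable {a b : ℕ}

namespace Aux

theorem mem_bh {u v : ℕ} {f : Co a b} : f ∈ bh a b u v ↔
    ∀ d : Ix a b →₀ ℕ, coeff d f ≠ 0 → Finsupp.weight (wt a b) d = (u, v) := by
  unfold bh
  rw [mem_weightedHomogeneousSubmodule]
  exact ⟨fun h d hd => h hd, fun h d hd => h d hd⟩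

theorem weight_eq (d : Ix a b →₀ ℕ) : Finsupp.weight (wt a b) d =
    (∑ i, d (Sum.inl i), ∑ j, d (Sum.inr j)) := by
  have h0 : ∀ i : Ix a b, (0 : ℕ) • wt a b i = 0 := fun i => zero_smul _ _
  rw [Finsupp.weight_apply, Finsupp.sum_fintype _ (fun i c => c • wt a b i) h0,
    Fintype.sum_sum_type]
  apply Prod.ext
  · simp [wt, Prod.fst_sum]
  · simp [wt, Prod.snd_sum]

/-- choose a smaller function with given sum -/
theorem exists_le_sum {ι : Type} [Fintype ι] [DecidableEq ι] (g : ι → ℕ) (n : ℕ)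
    (h : n ≤ ∑ i, g i) : ∃ g' : ι → ℕ, (∀ i, g' i ≤ g i) ∧ ∑ i, g' i = n := by
  induction n with
  | zero => exact ⟨0, fun i => Nat.zero_le _, by simp⟩
  | succ n ih =>
    obtain ⟨g', h1, h2⟩ := ih (by omega)
    obtain ⟨i, hi⟩ : ∃ i, g' i < g i := by
      by_contra hc
      push Not at hc
      have : ∑ i, g i ≤ ∑ i, g' i := Finset.sum_le_sum fun i _ => hc i
      omega
    refine ⟨g' + Pi.single i 1, fun k => ?_, ?_⟩
    · by_cases hk : k = i
      · subst hk
        simp
        omega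
      · simp [Pi.single_eq_of_ne hk, h1 k]
    · simp only [Pi.add_apply, Finset.sum_add_distrib, h2]
      simp

/-- splitting of exponents -/
theorem exists_split (u v u' v' : ℕ) (d : Ix a b →₀ ℕ)
    (hd : Finsupp.weight (wt a b) d = (u + u', v + v')) : ∃ d1 d2 : Ix a b →₀ ℕ, d = d1 + d2 ∧
      Finsupp.weight (wt a b) d1 = (u, v) ∧ Finsupp.weight (wt a b) d2 = (u', v') := by
  rw [weight_eq] at hd
  have h1 := congrArg Prod.fst hd
  have h2 := congrArg Prod.snd hd
  simp only at h1 h2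
  obtain ⟨g, hg, hgs⟩ := exists_le_sum (fun i => d (Sum.inl i)) u (by omega)
  obtain ⟨k, hk, hks⟩ := exists_le_sum (fun i => d (Sum.inr i)) v (by omega)
  refine ⟨Finsupp.equivFunOnFinite.symm (Sum.elim g k),
    Finsupp.equivFunOnFinite.symm (fun i => d i - Sum.elim g k i), ?_, ?_, ?_⟩
  · ext i
    simp only [Finsupp.coe_add, Pi.add_apply, Finsupp.equivFunOnFinite_symm_apply_apply]
    have : Sum.elim g k i ≤ d i := by
      rcases i with i | i
      · exact hg i
      · exact hk i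
    omega
  · rw [weight_eq]
    simp [hgs, hks]
  · rw [weight_eq]
    simp only [Finsupp.equivFunOnFinite_symm_apply_apply, Sum.elim_inl, Sum.elim_inr]
    have e1 : ∑ i, (d (Sum.inl i) - g i) = u' := by
      have h3 : ∑ i, (d (Sum.inl i) - g i) + ∑ i, g i = ∑ i, d (Sum.inl i) := by
        rw [← Finset.sum_add_distrib]
        exact Finset.sum_congr rfl fun i _ => Nat.sub_add_cancel (hg i)
      omega
    have e2 : ∑ i, (d (Sum.inr i) - k i) = v' := by
      have h3 : ∑ i, (d (Sum.inr i) - k i) + ∑ i, k i = ∑ i, d (Sum.inr i) := by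
        rw [← Finset.sum_add_distrib]
        exact Finset.sum_congr rfl fun i _ => Nat.sub_add_cancel (hk i)
      omega
    rw [e1, e2]

theorem finite_exp (u v : ℕ) : {d : Ix a b →₀ ℕ | Finsupp.weight (wt a b) d = (u, v)}.Finite := by
  refine (Set.finite_Iic (Finsupp.equivFunOnFinite.symm fun _ : Ix a b => u + v)).subset ?_
  intro d hd
  rw [Set.mem_ofPred_eq, weight_eq] at hd
  have h1 := congrArg Prod.fst hd
  have h2 := congrArg Prod.snd hd
  simp only at h1 h2
  intro i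
  simp only [Finsupp.equivFunOnFinite_symm_apply_apply]
  rcases i with i | i
  · have := Finset.single_le_sum (f := fun i => d (Sum.inl i)) (fun _ _ => Nat.zero_le _)
      (Finset.mem_univ i)
    omega
  · have := Finset.single_le_sum (f := fun i => d (Sum.inr i)) (fun _ _ => Nat.zero_le _)
      (Finset.mem_univ i)
    omega

end Aux

theorem bh_mul {u v u' v' : ℕ} {f g : Co a b} (hf : f ∈ bh a b u v) (hg : g ∈ bh a b u' v') :
    f * g ∈ bh a b (u + u') (v + v') :=
  IsWeightedHomogeneous.mul (m := (u, v)) (n := (u', v')) hf hg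

theorem finite_bh (u v : ℕ) : FiniteDimensional ℂ (bh a b u v) := by
  have hfin : Finite {d : Ix a b →₀ ℕ | Finsupp.weight (wt a b) d = (u, v)} :=
    Aux.finite_exp u v
  let T : bh a b u v →ₗ[ℂ] ({d : Ix a b →₀ ℕ | Finsupp.weight (wt a b) d = (u, v)} → ℂ) :=
    { toFun := fun f d => coeff d.1 f.1
      map_add' := fun f g => by
        funext d
        simp
      map_smul' := fun c f => by
        funext d
        simp }
  refine Module.Finite.of_injective T ?_
  intro f g hfg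
  apply Subtype.ext
  ext d
  by_cases hd : Finsupp.weight (wt a b) d = (u, v)
  · exact congrFun hfg ⟨d, hd⟩
  · have h1 : coeff d f.1 = 0 := by
      by_contra h
      exact hd (Aux.mem_bh.1 f.2 d h)
    have h2 : coeff d g.1 = 0 := by
      by_contra h
      exact hd (Aux.mem_bh.1 g.2 d h)
    rw [h1, h2]

theorem X_inl_mem (i : Fin (a + 1)) : (X (Sum.inl i) : Co a b) ∈ bh a b 1 0 :=
  isWeightedHomogeneous_X ℂ (wt a b) (Sum.inl i)

theorem X_inr_mem (j : Fin (b + 1)) : (X (Sum.inr j) : Co a b) ∈ bh a b 0 1 :=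
  isWeightedHomogeneous_X ℂ (wt a b) (Sum.inr j)

/-- the forms of bidegree `(u + u', v + v')` are sums of products -/
theorem bh_eq_mul (u v u' v' : ℕ) :
    bh a b (u + u') (v + v') = bh a b u v * bh a b u' v' := by
  apply le_antisymm
  · intro f hf
    rw [f.as_sum]
    refine Submodule.sum_mem _ fun d hd => ?_
    have hw := Aux.mem_bh.1 hf d (mem_support_iff.1 hd)
    obtain ⟨d1, d2, h1, h2, h3⟩ := Aux.exists_split u v u' v' d hw
    have h4 : monomial d (coeff d f) = monomial d1 (coeff d f) * monomial d2 1 := by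
      rw [monomial_mul, mul_one, ← h1]
    rw [h4]
    exact Submodule.mul_mem_mul (isWeightedHomogeneous_monomial _ _ _ h2)
      (isWeightedHomogeneous_monomial _ _ _ h3)
  · exact Submodule.mul_le.2 fun f hf g hg => bh_mul hf hg

theorem Mu.mono {P N : Ideal (Co a b)} {m n q p u v : ℕ} {ψ : KK P} (h : Mu P N m n q p u v ψ)
    {u' v' : ℕ} (hu : u ≤ u') (hv : v ≤ v') : Mu P N m n q p u' v' ψ := by
  intro g hg
  have e1 : u' + q = (u + q) + (u' - u) := by omega
  have e2 : v' + p = (v + p) + (v' - v) := by omega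
  rw [e1, e2, bh_eq_mul] at hg
  induction hg using Submodule.mul_induction_on' with
  | mem_mul_mem g1 hg1 g2 hg2 =>
    obtain ⟨f, hf, hf2⟩ := h g1 hg1
    refine ⟨f * g2, ⟨?_, ?_⟩, ?_⟩
    · have h1 := bh_mul hf.1 hg2
      have e3 : u' + m = (u + m) + (u' - u) := by omega
      have e4 : v' + n = (v + n) + (v' - v) := by omega
      rw [e3, e4]
      exact h1
    · exact N.mul_mem_right g2 hf.2
    · rw [map_mul, map_mul, ← mul_assoc, hf2]
  | add x hx y hy hx2 hy2 =>
    obtain ⟨f1, h1, h2⟩ := hx2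
    obtain ⟨f2, h3, h4⟩ := hy2
    exact ⟨f1 + f2, Submodule.add_mem _ h1 h3, by rw [map_add, map_add, mul_add, h2, h4]⟩

namespace Aux

/-- for fixed `u`, `v` a subspace -/
def MuS (P N : Ideal (Co a b)) (m n q p u v : ℕ) : Submodule ℂ (KK P) where
  carrier := {ψ | Mu P N m n q p u v ψ}
  zero_mem' := fun g _ => ⟨0, Submodule.zero_mem _, by rw [zero_mul, map_zero]⟩
  add_mem' := by
    intro x y hx hy g hg
    obtain ⟨f1, h1, h2⟩ := hx g hg
    obtain ⟨f2, h3, h4⟩ := hy g hg
    exact ⟨f1 + f2, Submodule.add_mem _ h1 h3, by rw [map_add, add_mul, h2, h4]⟩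
  smul_mem' := by
    intro c x hx g hg
    obtain ⟨f1, h1, h2⟩ := hx g hg
    exact ⟨c • f1, Submodule.smul_mem _ c h1, by rw [map_smul, smul_mul_assoc, h2]⟩

theorem mem_MuS {P N : Ideal (Co a b)} {m n q p u v : ℕ} {ψ : KK P} :
    ψ ∈ MuS P N m n q p u v ↔ Mu P N m n q p u v ψ := Iff.rfl

end Aux

/-- the fractions of bidegree `(m - q, n - p)` which map all forms of large bidegree into `N`, as a
subspace -/
theorem exists_GaS (P N : Ideal (Co a b)) (m n q p : ℕ) :
    ∃ W : Submodule ℂ (KK P), ∀ ψ, ψ ∈ W ↔ Ga P N m n q p ψ := by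
  refine ⟨{ carrier := {ψ | Ga P N m n q p ψ}
            zero_mem' := ⟨0, 0, Aux.mem_MuS.1 (Submodule.zero_mem _)⟩
            add_mem' := ?_
            smul_mem' := ?_ }, fun ψ => Iff.rfl⟩
  · rintro x y ⟨u, v, hx⟩ ⟨u', v', hy⟩
    refine ⟨max u u', max v v', ?_⟩
    exact Aux.mem_MuS.1 (Submodule.add_mem _
      (Aux.mem_MuS.2 (Mu.mono hx (le_max_left _ _) (le_max_left _ _)))
      (Aux.mem_MuS.2 (Mu.mono hy (le_max_right _ _) (le_max_right _ _))))
  · rintro c x ⟨u, v, hx⟩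
    exact ⟨u, v, Aux.mem_MuS.1 (Submodule.smul_mem _ c (Aux.mem_MuS.2 hx))⟩

/-- a finite-dimensional space of such fractions has a common bidegree -/
theorem exists_common {P N : Ideal (Co a b)} {m n q p : ℕ} (V : Submodule ℂ (KK P))
    [FiniteDimensional ℂ V] (hV : ∀ ψ ∈ V, Ga P N m n q p ψ) :
    ∃ n0 : ℕ, ∀ u v : ℕ, n0 ≤ u → n0 ≤ v → ∀ ψ ∈ V, Mu P N m n q p u v ψ := by
  obtain ⟨s, hs⟩ := (Module.Finite.iff_fg (N := V)).1 inferInstance
  have hsV : ∀ ψ ∈ s, ψ ∈ V := fun ψ hψ => hs ▸ Submodule.subset_span hψ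
  have h1 : ∀ ψ : s, ∃ k : ℕ, Mu P N m n q p k k ψ.1 := by
    intro ψ
    obtain ⟨u, v, h⟩ := hV ψ.1 (hsV ψ.1 ψ.2)
    exact ⟨max u v, Mu.mono h (le_max_left _ _) (le_max_right _ _)⟩
  choose k hk using h1
  refine ⟨∑ ψ : s, k ψ, fun u v hu hv ψ hψ => ?_⟩
  have h2 : V ≤ Aux.MuS P N m n q p u v := by
    rw [← hs, Submodule.span_le]
    intro x hx
    have h3 : k ⟨x, hx⟩ ≤ ∑ ψ : s, k ψ :=
      Finset.single_le_sum (f := k) (fun _ _ => Nat.zero_le _) (Finset.mem_univ _)
    exact Mu.mono (hk ⟨x, hx⟩) (h3.trans hu) (h3.trans hv)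
  exact h2 hψ

end Pool.Agent.TH279.GR.G0a
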